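import Pool.Agent.N637.SLM.AR3

/-!
# The average rank of the quadratic twists of the elliptic curves with torsion `ℤ/2 × ℤ/4`

For coprime integers `a` odd, `c ≠ 0` even let `E_n : y² = x (x - a² m) (x + (c² - a²) m)`, `m = -n` or `-n / 4`,
be the quadratic twist by the fundamental discriminant `-n` of `y² = x (x + a²) (x + c²)`. (Classically, up to
isogeny, the curves `y² = x (x + a²) (x + c²)` are all the elliptic curves over `ℚ` whose torsion subgroup contains
`ℤ/2 × ℤ/4`, and their twists all the curves with rational 2-torsion and a rational cyclic subgroup of order `4`;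
`(3, 4)` is the modular curve `X_0(21)`, `(1, 4)` is isogenous to `X_0(15)`.) The theorems of Heath-Brown, Kane and
Smith on the twists of the curves with rational 2-torsion (average `3` of `S = 2 ^ rank · #Ш[2]`) exclude the curves
with a cyclic isogeny of degree `4`; for classes of twists of all curves with rational 2-torsion the average of `S`
is bounded (Yu), without exact values. Here the averages and moments are computed; they are different.

The pair `(a, c)` is admissible for `n` if the odd primes dividing `a c` are inert in `ℚ(√-n)`, `n` is a nonresidue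
modulo the primes dividing `c² - a²`, and `n ≢ 7 mod 8` if `8 ∣ c`, `n = 3 mod 8` if `c = 2 mod 4`. Let
`S = 2 ^ rank · #Ш[2]`, and let `R(n)` be the `4`-rank of the class group of `ℚ(√-n)`.

* For every `n` and ALL the pairs admissible for `n` (infinitely many curves at once) the rank of `E_n` is at most
  `2 R(n)`, and `2 ^ R(n) ≤ S ≤ 4 ^ R(n)`.

Let `(a_i, c_i)`, `i < k`, be finitely many pairs, such that no prime `3 mod 4` divides some `a_i c_i` and some
`c_j² - a_j²` (automatic for `k = 1`), and let `n` run through the family of the `n` for which all the `(a_i, c_i)` are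
admissible: a positive proportion of all the twists. Let `η = ∏ (1 - 2 ^ (-l)) = 0.2888`.

* The upper average of `2 R(n)`, so the one of the SUPREMUM of the ranks of all the curves with admissible `(a, c)`,
  is at most `3/2 + 25 η / 36 < 1.701`. The average of `4 ^ R(n)`, the bound for all the `S`, is `5`. Every function of
  `R(n)` bounded by a power of `2 ^ R(n)` has an average, its mean under the law of Fouvry and Klüners.
* If `a_i² - c_i²` is a square, the average of `S_i` is `5`.
* If no product of some of the `a_i² - c_i²` is a square (for `k = 1`: `a² - c²` is not a square): the upper average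
  rank is at most `1 + 71 η / 36 < 1.57`; the averages of `S_i`, `S_i²` and `S_i S_j`, `i ≠ j`, exist and are `4`, `31`
  and `25`. So the numbers `S_i` and `S_j` are correlated: the covariance is `9`, the variance `15`. Every function
  of `r = R(n)` and of the `s_i = log₂ S_i`, bounded by some power of `2 ^ (r + s_1 + ⋯ + s_k)`, has an average, its
  mean under the explicit law `law`.

The densities of the values of `(r, s_1, …, s_k)` are those of `MP_e23604_nt.JointSelmerLaw`; they give no averages,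
since the functions are not bounded. New here: all the moments are bounded (from the library of helper870 for the
2-Selmer groups of the fibres of families with full rational 2-torsion), so the averages converge, and the values.
-/

set_option autoImplicit false

open NumberField Filter Topology Finset

namespace Pool.Agent.Results.MP_788af2_nt.AverageRankTwists

open scoped Classical

open Pool.Agent.TH841.SH.D (Sha)

/-- `-n` is a fundamental discriminant. -/
def FundNeg (n : ℕ) : Prop := (Squarefree n ∧ n % 4 = 3) ∨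
  ∃ m : ℕ, n = 4 * m ∧ Squarefree m ∧ (m % 4 = 1 ∨ m % 4 = 2)

/-- The parameters of the curves: `a` odd, `c` even and not `0`, coprime. -/
def Curve (a c : ℤ) : Prop := a % 2 = 1 ∧ c % 2 = 0 ∧ c ≠ 0 ∧ IsCoprime a c

/-- No product of some of the `a_i² - c_i²` is a square. -/
def Independent {k : ℕ} (a c : Fin k → ℤ) : Prop :=
  ∀ T : Finset (Fin k), T.Nonempty → ¬ IsSquare (∏ i ∈ T, (a i ^ 2 - c i ^ 2))

/-- No prime `3 mod 4` divides some `a_i c_i` and some `c_j² - a_j²`. -/
def Compatible {k : ℕ} (a c : Fin k → ℤ) : Prop :=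
  ∀ i j, ∀ p : ℕ, p.Prime → p % 4 = 3 → (p : ℤ) ∣ a i * c i → ¬ (p : ℤ) ∣ c j ^ 2 - a j ^ 2

/-- `(a, c)` is admissible for `n`: the twist by `-n` has no split multiplicative reduction at the odd primes dividing the conductor of the
curve, and `n` is prime to them; the condition at `2`. -/
def Adm (a c : ℤ) (n : ℕ) : Prop :=
  (∀ p : ℕ, p.Prime → p ≠ 2 → (p : ℤ) ∣ a * c → jacobiSym (-(n : ℤ)) p = -1) ∧
  (∀ p : ℕ, p.Prime → (p : ℤ) ∣ c ^ 2 - a ^ 2 → jacobiSym (n : ℤ) p = -1) ∧
  (c % 8 = 4 ∨ (c % 8 = 0 ∧ n % 8 ≠ 7) ∨ (c % 4 = 2 ∧ n % 8 = 3))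

/-- The family. -/
def Family {k : ℕ} (a c : Fin k → ℤ) (n : ℕ) : Prop := FundNeg n ∧ ∀ i, Adm (a i) (c i) n

/-- The squarefree integer `m n` with `ℚ(√(m n)) = ℚ(√-n)`. -/
def m (n : ℕ) : ℤ := if n % 2 = 1 then -(n : ℤ) else -((n / 4 : ℕ) : ℤ)

/-- The quadratic twist by `-n` of the curve with the parameters `a`, `c`: the curve
`y² = x (x - a² m) (x + (c² - a²) m)`, `m = m n`. -/
def E (a c : ℤ) (n : ℕ) : WeierstrassCurve ℚ :=
  ⟨0, ((c : ℚ) ^ 2 - 2 * (a : ℚ) ^ 2) * (m n : ℚ), 0,
    -((a : ℚ) ^ 2 * ((c : ℚ) ^ 2 - (a : ℚ) ^ 2) * (m n : ℚ) ^ 2), 0⟩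

/-- The rank. -/
noncomputable def rank (W : WeierstrassCurve ℚ) : ℕ := Module.finrank ℤ W.toAffine.Point

/-- The number `2 ^ rank * #Ш[2]`. -/
noncomputable def S (W : WeierstrassCurve ℚ) : ℝ :=
  (2 : ℝ) ^ rank W * (Nat.card {x : Sha W // 2 • x = 0} : ℝ)

/-- `K` is the quadratic field `ℚ(√-n)`. -/
def IsQuad (n : ℕ) (K : Type) [Field K] [NumberField K] : Prop :=
  Module.finrank ℚ K = 2 ∧ ∃ s : K, s ^ 2 = (m n : K)

/-- The 4-rank of the class group of `K` is `r`: `#Cl(K)[4] = 2 ^ r * #Cl(K)[2]`. -/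
def FourRank (K : Type) [Field K] [NumberField K] (r : ℕ) : Prop :=
  Nat.card {c : ClassGroup (𝓞 K) // c ^ 4 = 1} =
    2 ^ r * Nat.card {c : ClassGroup (𝓞 K) // c ^ 2 = 1}

/-- `rank W(ℚ) + dim Ш(W/ℚ)[2] = s`. -/
def SelRank (W : WeierstrassCurve ℚ) (s : ℕ) : Prop :=
  AddGroup.FG W.toAffine.Point ∧ Finite {x : Sha W // 2 • x = 0} ∧
    2 ^ Module.finrank ℤ W.toAffine.Point * Nat.card {x : Sha W // 2 • x = 0} = 2 ^ s

/-- `x = (r, s)`: the 4-rank of the class group of `ℚ(√-n)` is `r` and `rank + dim Ш[2] = s i` for the twist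
number `i`. -/
def Joint {k : ℕ} (a c : Fin k → ℤ) (x : ℕ × (Fin k → ℕ)) (n : ℕ) : Prop :=
  (∀ i, SelRank (E (a i) (c i) n) (x.2 i)) ∧
    ∀ (K : Type) [Field K] [NumberField K], IsQuad n K → FourRank K x.1

/-- The matrix `M` over the field with two elements is alternating. -/
def Alt {r : ℕ} (M : Fin r → Fin r → ZMod 2) : Prop := (∀ a, M a a = 0) ∧ ∀ a b, M a b = M b a

/-- The kernel of the matrix `M` over the field with two elements has dimension `j`. -/
def Cor {r : ℕ} (M : Fin r → Fin r → ZMod 2) (j : ℕ) : Prop :=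
  (univ.filter fun x : Fin r → ZMod 2 => ∀ a, ∑ b, M a b * x b = 0).card = 2 ^ j

/-- The number of the alternating `r × r` matrices of corank `j` over the field with two elements. -/
noncomputable def alt (r j : ℕ) : ℕ :=
  (univ.filter fun M : Fin r → Fin r → ZMod 2 => Alt M ∧ Cor M j).card

/-- The order of the group `GL_r` over the field with two elements. -/
def gl (r : ℕ) : ℕ := ∏ i ∈ range r, (2 ^ r - 2 ^ i)

/-- The law: the probability of `(r, s)` is `∏_{l > r} (1 - 2^(-l)) / #GL_r(𝔽_2)` (the law of Fouvry and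
Klüners of the 4-rank) times the product over `i` of the probabilities that an alternating `r × r` matrix has
corank `s i - r`. -/
noncomputable def law {k : ℕ} (x : ℕ × (Fin k → ℕ)) : ℝ :=
  if ∀ i, x.1 ≤ x.2 i then
    (∏ i, (alt x.1 (x.2 i - x.1) : ℝ) / 2 ^ (x.1 * (x.1 - 1) / 2)) / (gl x.1 : ℝ) *
      ∏' l : ℕ, (1 - (1 / 2 : ℝ) ^ (x.1 + 1 + l)) else 0

/-- The law of Fouvry and Klüners of the 4-rank. -/
noncomputable def fk (r : ℕ) : ℝ := (∏' l : ℕ, (1 - (1 / 2 : ℝ) ^ (r + 1 + l))) / (gl r : ℝ)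

/-- `η = (1 - 1/2) (1 - 1/4) (1 - 1/8) ⋯` -/
noncomputable def eta : ℝ := ∏' i : ℕ, (1 - (1 / 2 : ℝ) ^ (i + 1))

/-- The number of the `n ≤ X` with the property `Q`. -/
noncomputable def count (Q : ℕ → Prop) (X : ℕ) : ℕ := ((Icc 1 X).filter fun n => Q n).card

/-- The average of `g` over the members `n ≤ X` of the family `F`. -/
noncomputable def avg (F : ℕ → Prop) (g : ℕ → ℝ) (X : ℕ) : ℝ :=
  (∑ n ∈ (Icc 1 X).filter (fun n => F n), g n) / (count F X : ℝ)

/-- The average of `g` over the family `F` exists and is `L`. -/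
def Mean (F : ℕ → Prop) (g : ℕ → ℝ) (L : ℝ) : Prop := Tendsto (avg F g) atTop (𝓝 L)

/-- The upper average of `g` over the family `F` is at most `L`. -/
def UpperMean (F : ℕ → Prop) (g : ℕ → ℝ) (L : ℝ) : Prop :=
  ∀ ε : ℝ, 0 < ε → ∀ᶠ X : ℕ in atTop, avg F g X ≤ L + ε

/-- **Main theorem.** `R n` is the 4-rank of the class group of `ℚ(√-n)`. -/
theorem result : (0.2887 < eta ∧ eta < 0.2889) ∧
    (∀ a c : ℤ, Curve a c → Compatible (fun _ : Fin 1 => a) fun _ => c) ∧
    ∃ R : ℕ → ℕ,
    (∀ (n : ℕ) (a c : ℤ), FundNeg n → Curve a c → Adm a c n →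
      (∀ (K : Type) [Field K] [NumberField K], IsQuad n K → FourRank K (R n)) ∧
      rank (E a c n) ≤ 2 * R n ∧ (2 : ℝ) ^ R n ≤ S (E a c n) ∧ S (E a c n) ≤ 4 ^ R n) ∧
    ∀ (k : ℕ) (_ : 0 < k) (a c : Fin k → ℤ) (_ : ∀ i, Curve (a i) (c i)) (_ : Compatible a c),
    (∃ δ : ℝ, 0 < δ ∧ ∀ᶠ X : ℕ in atTop, δ * X ≤ (count (Family a c) X : ℝ)) ∧
    UpperMean (Family a c) (fun n => 2 * (R n : ℝ)) (3 / 2 + 25 / 36 * eta) ∧
    Mean (Family a c) (fun n => (4 : ℝ) ^ R n) 5 ∧
    (∀ (f : ℕ → ℝ) (C : ℝ) (K : ℕ), (∀ r, |f r| ≤ C * 2 ^ (K * r)) →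
      Summable (fun r => fk r * f r) ∧ Mean (Family a c) (fun n => f (R n)) (∑' r, fk r * f r)) ∧
    (∀ i, IsSquare (a i ^ 2 - c i ^ 2) → Mean (Family a c) (fun n => S (E (a i) (c i) n)) 5) ∧
    (Independent a c →
      (∀ i, UpperMean (Family a c) (fun n => (rank (E (a i) (c i) n) : ℝ)) (1 + 71 / 36 * eta)) ∧
      (∀ i, Mean (Family a c) (fun n => S (E (a i) (c i) n)) 4) ∧
      (∀ i, Mean (Family a c) (fun n => S (E (a i) (c i) n) ^ 2) 31) ∧
      (∀ i j, i ≠ j → Mean (Family a c) (fun n => S (E (a i) (c i) n) * S (E (a j) (c j) n)) 25) ∧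
      ∀ (f : ℕ × (Fin k → ℕ) → ℝ) (C : ℝ) (K : ℕ),
        (∀ x, |f x| ≤ C * 2 ^ (K * (x.1 + ∑ i, x.2 i))) →
        ∀ g : ℕ → ℝ, (∀ n x, Family a c n → Joint a c x n → g n = f x) →
          Summable (fun x => law x * f x) ∧ Mean (Family a c) g (∑' x, law x * f x)) :=
  Pool.Agent.N637.SLM.AR.main3

end Pool.Agent.Results.MP_788af2_nt.AverageRankTwists
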