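import Pool.Agent.N397.AV.Ell2

/-!
# Average rank: all moments of smooth Birch and Swinnerton-Dyer products over all elliptic curves

Fix `γ > π/2` and let `w(u) = cos(γu) / Γ(1 + u)`. For an elliptic curve `E : y² = x³ + A x + B` over `ℚ` let

`P_T(E) = ∏_{p ∤ 6Δ} (N_p / p)^{w(log p / T)}`, `N_p = #E(𝔽_p)`,

a product over all primes which converges absolutely (the weight decays faster than every exponential): the product
of Birch and Swinnerton-Dyer with a smooth weight in place of the sharp cut-off.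

A. For EVERY curve `c T^r ≤ P_T(E) ≤ C T^r` for all large `T`, `r` the order of `L(E, s)` at `s = 1`, with no
hypothesis on the zeros (we only use that the continuation is meromorphic at the points of `[1, 3/2]`; it is entire by
the modularity theorem). So the analytic rank is the limit of `log P_T(E) / log T`.

B, C. Let `E` run over all the elliptic curves over `ℚ` (the minimal pairs `(A, B)` of the problem) ordered by the
height. For every REAL `k` and every `T`

`lim_{X → ∞} average_{H(E) ≤ X} P_T(E)^k = M_k(T)`, and `M_k(T) ~ a_k κ₁^k κ₂^{k²} T^{k/2 + k²/2}` as `T → ∞`,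

where `a_k` is the arithmetic factor, the product over all `p` of `(1 - 1/p)^{k(k+1)/2}` times the mean of
`(N_p / p)^k` over the `p`-adic minimal pairs.

D. So the exponent `log P_T(E) / log T` is `1/2 + o(1)` for almost all curves, with a power saving: for all large `T`
and `X ≥ X₀(T)` the exponent differs from `1/2` by `δ` or more for a proportion of at most `C T^{-δ²/2}` of the curves.

The average of the analytic ranks up to the height `X` is the limit for `T → ∞` of the average of the exponents. The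
conjecture says that it tends to `1/2`; here the limits are taken in the other order. The exponent `k/2 + k²/2` is the
one of the conjecture of Keating and Snaith for orthogonal families (for `1/L(E, 1)`).

The rotated law for a single curve and the mean value theorems over boxes are those of the starting library
`Pool.Agent.X287.CR`, `Pool.Agent.X278` (helpers 287 and 278); new are the independence at finitely many primes over
the family of the minimal pairs, the second moment of the local functions and the moments.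
-/

set_option autoImplicit false

open Filter Topology

namespace Pool.Agent.Results.MP_788af2_nt.MomentsOverAllCurves

/-- The pairs `(A, B)` of the problem: `4A³ + 27B² ≠ 0`, and no prime `p` satisfies `p⁴ ∣ A` and `p⁶ ∣ B`. -/
def IsMinimal (A B : ℤ) : Prop :=
  4 * A ^ 3 + 27 * B ^ 2 ≠ 0 ∧ ∀ p : ℕ, p.Prime → ¬ ((p : ℤ) ^ 4 ∣ A ∧ (p : ℤ) ^ 6 ∣ B)

/-- The height `max(4|A|³, 27B²)`. -/
def height (A B : ℤ) : ℤ := max (4 * |A| ^ 3) (27 * B ^ 2)

/-- The minimal pairs of height at most `X`; one for every elliptic curve over `ℚ` of height at most `X`. -/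
noncomputable def family (X : ℕ) : Finset (ℤ × ℤ) :=
  open Classical in (Finset.Icc (-(X : ℤ)) X ×ˢ Finset.Icc (-(X : ℤ)) X).filter
    fun E => IsMinimal E.1 E.2 ∧ height E.1 E.2 ≤ X

/-- The average of a function over the curves of height at most `X`. -/
noncomputable def average (X : ℕ) (f : ℤ × ℤ → ℝ) : ℝ := (∑ E ∈ family X, f E) / (family X).card

/-- The number of points of `y² = x³ + A x + B` modulo `p`, with the point at infinity. -/
noncomputable def points (A B : ℤ) (p : ℕ) : ℕ :=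
  Nat.card {P : ZMod p × ZMod p // P.2 ^ 2 = P.1 ^ 3 + (A : ZMod p) * P.1 + (B : ZMod p)} + 1

/-- `N_p / p` if `p` does not divide `6 (4A³ + 27B²)`, and `1` otherwise. -/
noncomputable def ratio (A B : ℤ) (p : ℕ) : ℝ :=
  open Classical in if (p : ℤ) ∣ 6 * (4 * A ^ 3 + 27 * B ^ 2) then 1 else (points A B p : ℝ) / p

/-- The Euler factor of `L(E, s)` at `p`, if `p` does not divide `6 (4A³ + 27B²)`, and `1` otherwise. -/
noncomputable def eulerFactor (A B : ℤ) (s : ℂ) (p : Nat.Primes) : ℂ :=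
  open Classical in if ((p : ℕ) : ℤ) ∣ 6 * (4 * A ^ 3 + 27 * B ^ 2) then 1 else
    (1 - (((p : ℕ) : ℂ) + 1 - points A B p) * ((p : ℕ) : ℂ) ^ (-s) + ((p : ℕ) : ℂ) ^ (1 - 2 * s))⁻¹

/-- The weight `cos(γu) / Γ(1 + u)`. -/
noncomputable def weight (γ u : ℝ) : ℝ := Real.cos (γ * u) / Real.Gamma (1 + u)

/-- `P_T(E)`. -/
noncomputable def P (γ T : ℝ) (E : ℤ × ℤ) : ℝ :=
  ∏' p : Nat.Primes, ratio E.1 E.2 p ^ weight γ (Real.log (p : ℕ) / T)

/-- The number of the curves of height at most `X` whose exponent `log P_T(E) / log T` differs from `1/2` by at least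
`δ`. -/
noncomputable def exceptions (γ T δ : ℝ) (X : ℕ) : ℕ :=
  Set.ncard {E : ℤ × ℤ | E ∈ family X ∧ δ ≤ |Real.log (P γ T E) / Real.log T - 1 / 2|}

/-- The mean of `(N_p / p)^x` over the `p`-adic minimal pairs: the pairs with `p⁴ ∣ A` and `p⁶ ∣ B`, of measure
`p⁻¹⁰`, are removed. -/
noncomputable def localMean (p : Nat.Primes) (x : ℝ) : ℝ :=
  ((∑ a ∈ Finset.range p, ∑ b ∈ Finset.range p, ratio (a : ℤ) (b : ℤ) p ^ x) / (p : ℕ) ^ 2 - 1 / (p : ℕ) ^ 10) /
    (1 - 1 / (p : ℕ) ^ 10)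

/-- `M_k(T)`. -/
noncomputable def M (γ k T : ℝ) : ℝ := ∏' p : Nat.Primes, localMean p (k * weight γ (Real.log (p : ℕ) / T))

/-- The factor of `a_k` at `p`. -/
noncomputable def arithFactor (k : ℝ) (p : Nat.Primes) : ℝ :=
  (1 - (((p : ℕ) : ℝ))⁻¹) ^ (k * (k + 1) / 2) * localMean p k

/-- The arithmetic factor `a_k`. -/
noncomputable def arith (k : ℝ) : ℝ := ∏' p : Nat.Primes, arithFactor k p

open Pool.Agent.X278.AV Pool.Agent.N397.AV

theorem good_iff (A B : ℤ) (p : ℕ) :
    (p : ℤ) ∣ 6 * (4 * A ^ 3 + 27 * B ^ 2) ↔ (6 : ZMod p) * (4 * (A : ZMod p) ^ 3 + 27 * (B : ZMod p) ^ 2) = 0 := by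
  rw [← ZMod.intCast_zmod_eq_zero_iff_dvd]
  push_cast
  rfl

theorem ratio_pos (A B : ℤ) (p : Nat.Primes) : 0 < ratio A B p := by
  have hp0 : (0 : ℝ) < (p : ℕ) := by exact_mod_cast p.2.pos
  unfold ratio points
  split_ifs with h
  · exact one_pos
  · push_cast
    positivity

theorem log_ratio (A B : ℤ) (p : Nat.Primes) : Real.log (ratio A B p) = ff (A : ZMod p) (B : ZMod p) := by
  unfold ratio ff points
  by_cases h : ((p : ℕ) : ℤ) ∣ 6 * (4 * A ^ 3 + 27 * B ^ 2)
  · rw [if_pos h, if_pos ((good_iff A B p).1 h), Real.log_one]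
  · rw [if_neg h, if_neg (fun h' => h ((good_iff A B p).2 h')), ZMod.card]
    unfold pts
    push_cast
    rfl

theorem log_ratio' (E : ℤ × ℤ) (p : Nat.Primes) :
    Real.log (ratio E.1 E.2 p) = fH p (red (p : ℕ) ((finTwoArrowEquiv ℤ).symm E)) := by
  rw [log_ratio]
  rfl

theorem sum_abs (E : ℤ × ℤ) (γ : ℝ) {T : ℝ} (hT : 0 < T) :
    Summable fun p : Nat.Primes => |weight γ (Real.log (p : ℕ) / T) * Real.log (ratio E.1 E.2 p)| := by
  refine Summable.of_nonneg_of_le (fun _ => abs_nonneg _) (fun p => ?_) (wt_sum (γ := γ) hT (B := 100) (by norm_num))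
  have hu : 0 ≤ Real.log (p : ℕ) / T := div_nonneg (Real.log_nonneg (by exact_mod_cast p.2.one_le)) hT.le
  rw [abs_mul, Pool.Agent.X278.OP.norm_Wt γ hu, log_ratio']
  have h1 : |weight γ (Real.log (p : ℕ) / T)| ≤ Pool.Agent.W189.ML.om (Real.log (p : ℕ) / T) := wr_le γ hu
  have h2 := fH_size p (red (p : ℕ) ((finTwoArrowEquiv ℤ).symm E))
  have h3 := Pool.Agent.W189.ML.om_nonneg hu
  calc _ ≤ Pool.Agent.W189.ML.om (Real.log (p : ℕ) / T) * (100 / √((p : ℕ) : ℝ)) := by gcongr
    _ = _ := by ring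

theorem P_eq (E : ℤ × ℤ) (γ : ℝ) {T : ℝ} (hT : 0 < T) :
    P γ T E = Real.exp (∑' p : Nat.Primes, weight γ (Real.log (p : ℕ) / T) * Real.log (ratio E.1 E.2 p)) := by
  have h1 := (sum_abs E γ hT).of_abs
  have h2 : ∀ p : Nat.Primes, ratio E.1 E.2 p ^ weight γ (Real.log (p : ℕ) / T) =
      Real.exp (weight γ (Real.log (p : ℕ) / T) * Real.log (ratio E.1 E.2 p)) := by
    intro p
    rw [Real.rpow_def_of_pos (ratio_pos _ _ p), mul_comm]
  have h3 : HasProd (fun p : Nat.Primes => Real.exp (weight γ (Real.log (p : ℕ) / T) * Real.log (ratio E.1 E.2 p)))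
      (Real.exp (∑' p : Nat.Primes, weight γ (Real.log (p : ℕ) / T) * Real.log (ratio E.1 E.2 p))) := by
    refine Real.hasProd_of_hasSum_log (fun p => Real.exp_pos _) ?_
    simp only [Real.log_exp]
    exact h1.hasSum
  unfold P
  rw [tprod_congr h2]
  exact h3.tprod_eq

theorem sum_range_zmod {n : ℕ} [NeZero n] (f : ZMod n → ℝ) : ∑ a ∈ Finset.range n, f (a : ZMod n) = ∑ a : ZMod n, f a := by
  refine Finset.sum_bij' (fun a _ => (a : ZMod n)) (fun a _ => a.val) (fun _ _ => Finset.mem_univ _)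
    (fun a _ => Finset.mem_range.2 (ZMod.val_lt a)) (fun a ha => ZMod.val_cast_of_lt (Finset.mem_range.1 ha))
    (fun a _ => ZMod.natCast_zmod_val a) (fun _ _ => rfl)

theorem localMean_eq (p : Nat.Primes) (x : ℝ) : localMean p x = pH p x := by
  have hp2 : (2 : ℝ) ≤ (p : ℕ) := by exact_mod_cast p.2.two_le
  have hp0 : (0 : ℝ) < (p : ℕ) := by linarith
  have h10 : ∑ j, eH j = 10 := by simp [eH]
  have e1 : ∀ a b : ℕ, ratio (a : ℤ) (b : ℤ) p ^ x = Real.exp (x * ff (a : ZMod p) (b : ZMod p)) := by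
    intro a b
    rw [Real.rpow_def_of_pos (ratio_pos _ _ p), log_ratio, mul_comm]
    push_cast
    rfl
  have e2 : ∑ a ∈ Finset.range p, ∑ b ∈ Finset.range p, ratio (a : ℤ) (b : ℤ) p ^ x =
      ∑ r : Fin 2 → ZMod p, Real.exp (x * fH p r) := by
    simp only [e1]
    rw [sum_range_zmod (n := (p : ℕ)) (fun a => ∑ b ∈ Finset.range p, Real.exp (x * ff a (b : ZMod p)))]
    have e3 : ∀ a : ZMod p, ∑ b ∈ Finset.range p, Real.exp (x * ff a (b : ZMod p)) =
        ∑ b : ZMod p, Real.exp (x * ff a b) := fun a => sum_range_zmod (n := (p : ℕ)) (fun b => Real.exp (x * ff a b))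
    simp only [e3]
    rw [← Fintype.sum_prod_type' (fun a b : ZMod p => Real.exp (x * ff a b))]
    exact (Fintype.sum_equiv (finTwoArrowEquiv _) _ _ fun r => rfl).symm
  unfold localMean pH ph Ex avg
  rw [e2, h10, Finset.sum_sub_distrib, Finset.sum_const, Finset.card_univ, Fintype.card_fun, Fintype.card_fin,
    ZMod.card, nsmul_eq_mul, mul_one]
  push_cast
  have h1 : (((p : ℕ) : ℝ) ^ 10)⁻¹ ≤ 1 / 2 := by
    rw [inv_le_comm₀ (by positivity) (by norm_num)]
    have : (2 : ℝ) ^ 1 ≤ ((p : ℕ) : ℝ) ^ 10 := (pow_le_pow_left₀ (by norm_num) hp2 1).trans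
      (pow_le_pow_right₀ (by linarith) (by norm_num))
    linarith
  have h2 : (1 : ℝ) - (((p : ℕ) : ℝ) ^ 10)⁻¹ ≠ 0 := by linarith
  rw [one_div]
  set ε : ℝ := (((p : ℕ) : ℝ) ^ 10)⁻¹ with hε
  set S : ℝ := ∑ r : Fin 2 → ZMod p, Real.exp (x * fH p r) with hS
  have h3 : (S - ((p : ℕ) : ℝ) ^ 2) / ((p : ℕ) : ℝ) ^ 2 = S / ((p : ℕ) : ℝ) ^ 2 - 1 := by
    field_simp
  rw [h3]
  field_simp
  ring

theorem mem_family {X : ℕ} {E : ℤ × ℤ} : E ∈ family X ↔ IsMinimal E.1 E.2 ∧ height E.1 E.2 ≤ X := by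
  classical
  unfold family
  rw [Finset.mem_filter, Finset.mem_product, Finset.mem_Icc, Finset.mem_Icc]
  refine ⟨fun h => h.2, fun h => ⟨?_, h⟩⟩
  obtain ⟨-, h2⟩ := h
  unfold height at h2
  have h3 := (le_max_left _ _).trans h2
  have h4 := (le_max_right _ _).trans h2
  have h5 : |E.1| ≤ |E.1| ^ 3 := by
    rcases eq_or_ne E.1 0 with h | h
    · rw [h]; simp
    · have : 1 ≤ |E.1| := Int.one_le_abs h
      nlinarith [sq_nonneg (|E.1|), mul_nonneg (abs_nonneg E.1) (sub_nonneg.2 this)]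
  have h6 : |E.2| ≤ E.2 ^ 2 := by
    rw [← sq_abs]
    rcases eq_or_ne E.2 0 with h | h
    · rw [h]; simp
    · have : 1 ≤ |E.2| := Int.one_le_abs h
      nlinarith
  have h7 : |E.1| ≤ X := by nlinarith [abs_nonneg E.1]
  have h8 : |E.2| ≤ X := by nlinarith [abs_nonneg E.2]
  exact ⟨abs_le.1 h7, abs_le.1 h8⟩

theorem family_eq (X : ℕ) : family X = (Fam eH ZH (abH X)).map (finTwoArrowEquiv ℤ).toEmbedding := by
  classical
  ext E
  rw [mem_family, Finset.mem_map_equiv]
  unfold Fam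
  rw [Finset.mem_filter, mem_Box]
  set x : Fin 2 → ℤ := (finTwoArrowEquiv ℤ).symm E with hx
  have hx0 : x 0 = E.1 := rfl
  have hx1 : x 1 = E.2 := rfl
  have hbox : (∀ j, |x j| ≤ ((abH X j : ℕ) : ℤ)) ↔ height E.1 E.2 ≤ X := by
    rw [Fin.forall_fin_two, hx0, hx1]
    unfold height abH
    simp only [Matrix.cons_val_zero, Matrix.cons_val_one]
    rw [max_le_iff]
    have h1 : |E.1| ≤ ((aH X : ℕ) : ℤ) ↔ 4 * |E.1| ^ 3 ≤ (X : ℤ) := by
      rw [Int.abs_eq_natAbs, Int.ofNat_le, le_aH]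
      norm_cast
    have h2 : |E.2| ≤ ((bH X : ℕ) : ℤ) ↔ 27 * E.2 ^ 2 ≤ (X : ℤ) := by
      rw [← sq_abs E.2, Int.abs_eq_natAbs, Int.ofNat_le, le_bH]
      norm_cast
    rw [h1, h2]
  have hmin : (Min eH x ∧ ¬ ZH x) ↔ IsMinimal E.1 E.2 := by
    unfold Pool.Agent.X278.AV.Min ZH IsMinimal
    rw [hx0, hx1]
    constructor
    · rintro ⟨h1, h2⟩
      refine ⟨h2, fun p hp h3 => h1 p hp ?_⟩
      rw [Fin.forall_fin_two]
      exact h3
    · rintro ⟨h1, h2⟩
      refine ⟨fun p hp h3 => h2 p hp ?_, h1⟩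
      rw [Fin.forall_fin_two] at h3
      exact h3
  rw [hbox, hmin, and_comm]

theorem average_eq (X : ℕ) (f : ℤ × ℤ → ℝ) :
    average X f = mean (Fam eH ZH (abH X)) (fun x => f (finTwoArrowEquiv ℤ x)) := by
  unfold average mean
  rw [family_eq, Finset.sum_map, Finset.card_map]
  rfl

theorem family_nonempty : ∀ᶠ X : ℕ in atTop, (family X).Nonempty := by
  filter_upwards [fam_ne dataH] with X hX
  rw [family_eq]
  simpa using hX

/-- **All moments of smooth Birch and Swinnerton-Dyer products over all elliptic curves.** -/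
theorem result (γ : ℝ) (hγ : Real.pi / 2 < γ) : ∃ κ₁ κ₂ : ℝ, 0 < κ₁ ∧ 0 < κ₂ ∧
    -- absolute convergence of the products
    (∀ (E : ℤ × ℤ) (T : ℝ), 0 < T → Summable fun p : Nat.Primes =>
      |weight γ (Real.log (p : ℕ) / T) * Real.log (ratio E.1 E.2 p)|) ∧
    -- A. the order of vanishing of a single curve
    (∀ E : ℤ × ℤ, 4 * E.1 ^ 3 + 27 * E.2 ^ 2 ≠ 0 → ∀ F : ℂ → ℂ,
      (∀ s : ℂ, 3 / 2 < s.re → HasProd (eulerFactor E.1 E.2 s) (F s)) →
      (∀ x : ℝ, 1 ≤ x → x ≤ 3 / 2 → MeromorphicAt F (x : ℂ)) →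
      ∃ m : ℤ, meromorphicOrderAt F 1 = m ∧ ∃ c C : ℝ, 0 < c ∧ ∀ᶠ T : ℝ in atTop,
        c * T ^ m ≤ P γ T E ∧ P γ T E ≤ C * T ^ m) ∧
    -- B. the moments for fixed `T`
    (∀ k T : ℝ, 0 < T → Tendsto (fun X : ℕ => average X fun E => P γ T E ^ k) atTop (𝓝 (M γ k T))) ∧
    -- C. their asymptotics
    (∀ k : ℝ, (Summable fun p : Nat.Primes => Real.log (arithFactor k p)) ∧ 0 < arith k ∧
      Tendsto (fun T : ℝ => M γ k T / T ^ (k * (k + 1) / 2)) atTop (𝓝 (arith k * κ₁ ^ k * κ₂ ^ (k ^ 2)))) ∧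
    -- D. almost all curves
    (∀ δ : ℝ, 0 < δ → ∃ C : ℝ, ∀ᶠ T : ℝ in atTop, ∀ᶠ X : ℕ in atTop,
      (exceptions γ T δ X : ℝ) ≤ C * T ^ (-(δ ^ 2 / 2)) * (family X).card) := by
  classical
  obtain ⟨κ₁, κ₂, hκ₁, hκ₂, hmain⟩ := prod_asymp γ (1 / 2) (1 / 2)
  have hB : ∀ k T : ℝ, 0 < T → Tendsto (fun X : ℕ => average X fun E => P γ T E ^ k) atTop (𝓝 (M γ k T)) := by
    intro k T hT
    have h1 := mean_H γ k hT
    have h2 : (∏' p : Nat.Primes, pH p (k * wr γ (Real.log (p : ℕ) / T))) = M γ k T := by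
      unfold M
      exact tprod_congr fun p => (localMean_eq p _).symm
    rw [h2] at h1
    refine h1.congr fun X => ?_
    rw [average_eq]
    unfold mean
    congr 1
    refine Finset.sum_congr rfl fun x _ => ?_
    beta_reduce
    rw [P_eq _ γ hT, ← Real.exp_mul, mul_comm k]
    congr 2
    refine tsum_congr fun p => ?_
    rw [log_ratio', Equiv.symm_apply_apply]
    rfl
  have hC : ∀ k : ℝ, (Summable fun p : Nat.Primes => Real.log (arithFactor k p)) ∧ 0 < arith k ∧
      Tendsto (fun T : ℝ => M γ k T / T ^ (k * (k + 1) / 2)) atTop (𝓝 (arith k * κ₁ ^ k * κ₂ ^ (k ^ 2))) := by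
    intro k
    have hpos : ∀ (p : Nat.Primes) (x : ℝ), 0 < localMean p x := by
      intro p x
      rw [localMean_eq]
      exact pH_pos p x
    have hcont : ∀ p : Nat.Primes, Continuous (localMean p) := by
      intro p
      have : localMean p = pH p := funext (localMean_eq p)
      rw [this]
      exact pH_cont p
    have hexp : ∀ K : ℝ, ∃ C : ℝ, ∀ (p : Nat.Primes) (x : ℝ), |x| ≤ K →
        |Real.log (localMean p x) - (1 / 2 * x + 1 / 2 * x ^ 2) / (p : ℕ)| ≤ C / (√((p : ℕ) : ℝ) * (p : ℕ)) := by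
      intro K
      obtain ⟨C, hC⟩ := pH_exp K
      refine ⟨C, fun p x hx => ?_⟩
      rw [localMean_eq]
      exact hC p x hx
    obtain ⟨h1, -, h3⟩ := hmain localMean hpos hcont hexp k
    have hp1 : ∀ p : Nat.Primes, 0 < 1 - (((p : ℕ) : ℝ))⁻¹ := fun p => by
      have := inv_half p
      linarith
    have hexpo : (1 / 2 * k + 1 / 2 * k ^ 2 : ℝ) = k * (k + 1) / 2 := by ring
    rw [hexpo] at h1 h3
    have e1 : ∀ p : Nat.Primes, Real.log (arithFactor k p) =
        k * (k + 1) / 2 * Real.log (1 - (((p : ℕ) : ℝ))⁻¹) + Real.log (localMean p k) := by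
      intro p
      unfold arithFactor
      rw [Real.log_mul (Real.rpow_pos_of_pos (hp1 p) _).ne' (hpos p k).ne', Real.log_rpow (hp1 p)]
    have hs1 : Summable fun p : Nat.Primes => Real.log (arithFactor k p) := h1.congr fun p => (e1 p).symm
    refine ⟨hs1, ?_, h3⟩
    have e2 : Real.exp (∑' p, Real.log (arithFactor k p)) = arith k :=
      Real.rexp_tsum_eq_tprod (f := arithFactor k)
        (fun p => mul_pos (Real.rpow_pos_of_pos (hp1 p) _) (hpos p k)) hs1
    rw [← e2]
    exact Real.exp_pos _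
  refine ⟨κ₁, κ₂, hκ₁, hκ₂, fun E T hT => sum_abs E γ hT, ?_, hB, hC, ?_⟩
  · intro E _ F hF hm
    have hef : ∀ s, eulerFactor E.1 E.2 s = efQ E.1 E.2 s := by
      intro s
      funext p
      unfold eulerFactor efQ GoodQ points ptsQ
      by_cases h : ((p : ℕ) : ℤ) ∣ 6 * (4 * E.1 ^ 3 + 27 * E.2 ^ 2)
      · rw [if_pos h, if_neg (not_not.2 ((good_iff _ _ _).1 h))]
      · rw [if_neg h, if_pos (fun h' => h ((good_iff _ _ _).2 h'))]
        push_cast
        congr 3
        ring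
    obtain ⟨m, h1, B, h2⟩ := SQ_growth E.1 E.2 (F := F) (fun s hs => by rw [← hef]; exact hF s hs) hm hγ
    refine ⟨m, h1, Real.exp (-B), Real.exp B, Real.exp_pos _, ?_⟩
    filter_upwards [h2, eventually_gt_atTop (0 : ℝ)] with T h3 hT
    have hs := (sum_abs E γ hT).of_abs
    have h4 : (SQ E.1 E.2 γ T).re =
        ∑' p : Nat.Primes, weight γ (Real.log (p : ℕ) / T) * Real.log (ratio E.1 E.2 p) := by
      unfold SQ
      have hsC : Summable fun p : Nat.Primes => ((ff (E.1 : ZMod p) (E.2 : ZMod p) : ℝ) : ℂ) *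
          Pool.Agent.X278.OP.Wt γ (Real.log (p : ℕ) / T) := by
        refine Summable.of_norm (Summable.of_nonneg_of_le (fun _ => norm_nonneg _) (fun p => ?_)
          (wt_sum (γ := γ) hT (B := 100) (by norm_num)))
        rw [norm_mul, Complex.norm_real, Real.norm_eq_abs, ← log_ratio, log_ratio' (E.1, E.2)]
        have h2 := fH_size p (red (p : ℕ) ((finTwoArrowEquiv ℤ).symm (E.1, E.2)))
        gcongr
      rw [Complex.re_tsum hsC]
      refine tsum_congr fun p => ?_
      rw [Complex.re_ofReal_mul, re_Wt, log_ratio]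
      unfold weight
      ring
    have h5 : |(SQ E.1 E.2 γ T).re - m * Real.log T| ≤ B := by
      have e1 : (SQ E.1 E.2 γ T).re - m * Real.log T = (SQ E.1 E.2 γ T - m * Real.log T).re := by
        rw [Complex.sub_re]
        congr 1
        have : ((m : ℤ) : ℂ) = ((m : ℝ) : ℂ) := by push_cast; rfl
        rw [this, Complex.re_ofReal_mul, Complex.ofReal_re]
      rw [e1]
      exact (Complex.abs_re_le_norm _).trans h3
    have e7 : T ^ m = Real.exp (m * Real.log T) := by
      rw [← Real.rpow_intCast, Real.rpow_def_of_pos hT]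
      congr 1
      ring
    rw [P_eq E γ hT, ← h4, e7, ← Real.exp_add, ← Real.exp_add]
    obtain ⟨h6, h7⟩ := abs_le.1 h5
    constructor
    · apply Real.exp_le_exp.2
      linarith
    · apply Real.exp_le_exp.2
      linarith
  · intro δ hδ
    -- the constants
    have hlim : ∀ k : ℝ, ∃ C : ℝ, 0 < C ∧ ∀ᶠ T : ℝ in atTop, M γ k T < C * T ^ (k * (k + 1) / 2) := by
      intro k
      obtain ⟨-, -, h3⟩ := hC k
      refine ⟨|arith k * κ₁ ^ k * κ₂ ^ (k ^ 2)| + 1, by positivity, ?_⟩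
      have h4 := h3.eventually_lt_const (u := |arith k * κ₁ ^ k * κ₂ ^ (k ^ 2)| + 1)
        (lt_of_le_of_lt (le_abs_self _) (by linarith))
      filter_upwards [h4, eventually_gt_atTop (0 : ℝ)] with T h5 hT
      rwa [div_lt_iff₀ (Real.rpow_pos_of_pos hT _)] at h5
    obtain ⟨C₁, hC₁, h1⟩ := hlim δ
    obtain ⟨C₂, hC₂, h2⟩ := hlim (-δ)
    refine ⟨C₁ + C₂, ?_⟩
    filter_upwards [h1, h2, eventually_gt_atTop (1 : ℝ)] with T h3 h4 hT1
    have hT : 0 < T := by linarith
    have hlog : 0 < Real.log T := Real.log_pos hT1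
    have k1 := (hB δ T hT).eventually_lt_const h3
    have k2 := (hB (-δ) T hT).eventually_lt_const h4
    filter_upwards [k1, k2, family_nonempty] with X k3 k4 k5
    have hcard : (0 : ℝ) < (family X).card := by exact_mod_cast k5.card_pos
    unfold average at k3 k4
    rw [div_lt_iff₀ hcard] at k3 k4
    have hPpos : ∀ E, 0 < P γ T E := fun E => by
      rw [P_eq E γ hT]
      exact Real.exp_pos _
    set S₁ := (family X).filter fun E => δ ≤ Real.log (P γ T E) / Real.log T - 1 / 2 with hS₁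
    set S₂ := (family X).filter fun E => δ ≤ -(Real.log (P γ T E) / Real.log T - 1 / 2) with hS₂
    have hcov : ((family X).filter fun E => δ ≤ |Real.log (P γ T E) / Real.log T - 1 / 2|) ⊆ S₁ ∪ S₂ := by
      intro E hE
      rw [Finset.mem_filter] at hE
      rw [Finset.mem_union, hS₁, hS₂, Finset.mem_filter, Finset.mem_filter]
      rcases le_abs.1 hE.2 with h | h
      · exact Or.inl ⟨hE.1, h⟩
      · exact Or.inr ⟨hE.1, h⟩
    have b1 : (S₁.card : ℝ) * T ^ (δ * (1 / 2 + δ)) ≤ ∑ E ∈ family X, P γ T E ^ δ := by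
      have g1 : ∀ E ∈ S₁, T ^ (δ * (1 / 2 + δ)) ≤ P γ T E ^ δ := by
        intro E hE
        rw [hS₁, Finset.mem_filter] at hE
        have g2 : (1 / 2 + δ) * Real.log T ≤ Real.log (P γ T E) := by
          have := hE.2
          rw [le_sub_iff_add_le, le_div_iff₀ hlog] at this
          linarith
        rw [Real.rpow_def_of_pos hT, Real.rpow_def_of_pos (hPpos E)]
        apply Real.exp_le_exp.2
        nlinarith
      calc (S₁.card : ℝ) * T ^ (δ * (1 / 2 + δ)) = ∑ _E ∈ S₁, T ^ (δ * (1 / 2 + δ)) := by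
            rw [Finset.sum_const, nsmul_eq_mul]
        _ ≤ ∑ E ∈ S₁, P γ T E ^ δ := Finset.sum_le_sum g1
        _ ≤ _ := Finset.sum_le_sum_of_subset_of_nonneg (Finset.filter_subset _ _)
            fun E _ _ => Real.rpow_nonneg (hPpos E).le _
    have b2 : (S₂.card : ℝ) * T ^ (-(δ * (1 / 2 - δ))) ≤ ∑ E ∈ family X, P γ T E ^ (-δ) := by
      have g1 : ∀ E ∈ S₂, T ^ (-(δ * (1 / 2 - δ))) ≤ P γ T E ^ (-δ) := by
        intro E hE
        rw [hS₂, Finset.mem_filter] at hE
        have g2 : Real.log (P γ T E) ≤ (1 / 2 - δ) * Real.log T := by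
          have := hE.2
          have g3 : Real.log (P γ T E) / Real.log T ≤ 1 / 2 - δ := by linarith
          rwa [div_le_iff₀ hlog] at g3
        rw [Real.rpow_def_of_pos hT, Real.rpow_def_of_pos (hPpos E)]
        apply Real.exp_le_exp.2
        nlinarith
      calc (S₂.card : ℝ) * T ^ (-(δ * (1 / 2 - δ))) = ∑ _E ∈ S₂, T ^ (-(δ * (1 / 2 - δ))) := by
            rw [Finset.sum_const, nsmul_eq_mul]
        _ ≤ ∑ E ∈ S₂, P γ T E ^ (-δ) := Finset.sum_le_sum g1
        _ ≤ _ := Finset.sum_le_sum_of_subset_of_nonneg (Finset.filter_subset _ _)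
            fun E _ _ => Real.rpow_nonneg (hPpos E).le _
    have c1 : (S₁.card : ℝ) ≤ C₁ * T ^ (-(δ ^ 2 / 2)) * (family X).card := by
      have g1 := b1.trans k3.le
      have g2 : 0 < T ^ (δ * (1 / 2 + δ)) := Real.rpow_pos_of_pos hT _
      rw [← le_div_iff₀ g2] at g1
      refine g1.trans (le_of_eq ?_)
      have g3 : T ^ (-(δ ^ 2 / 2)) = T ^ (δ * (δ + 1) / 2) / T ^ (δ * (1 / 2 + δ)) := by
        rw [← Real.rpow_sub hT]
        congr 1
        ring
      rw [g3]
      ring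
    have c2 : (S₂.card : ℝ) ≤ C₂ * T ^ (-(δ ^ 2 / 2)) * (family X).card := by
      have g1 := b2.trans k4.le
      have g2 : 0 < T ^ (-(δ * (1 / 2 - δ))) := Real.rpow_pos_of_pos hT _
      rw [← le_div_iff₀ g2] at g1
      refine g1.trans (le_of_eq ?_)
      have g3 : T ^ (-(δ ^ 2 / 2)) = T ^ (-δ * (-δ + 1) / 2) / T ^ (-(δ * (1 / 2 - δ))) := by
        rw [← Real.rpow_sub hT]
        congr 1
        ring
      rw [g3]
      ring
    have d1 : (exceptions γ T δ X : ℝ) ≤ (S₁.card : ℝ) + S₂.card := by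
      have e1 : {E : ℤ × ℤ | E ∈ family X ∧ δ ≤ |Real.log (P γ T E) / Real.log T - 1 / 2|} =
          (((family X).filter fun E => δ ≤ |Real.log (P γ T E) / Real.log T - 1 / 2| : Finset (ℤ × ℤ)) : Set (ℤ × ℤ)) := by
        ext E
        rw [Finset.mem_coe, Finset.mem_filter, Set.mem_setOf_eq]
      unfold exceptions
      rw [e1, Set.ncard_coe_finset]
      exact_mod_cast (Finset.card_le_card hcov).trans (Finset.card_union_le _ _)
    refine d1.trans ((add_le_add c1 c2).trans (le_of_eq ?_))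
    ring

end Pool.Agent.Results.MP_788af2_nt.MomentsOverAllCurves
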