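import Mathlib
import Pool.Agent.N870.SQ.JacA
import Pool.Agent.Y723.SJ.Def
import Pool.Agent.Y723.SJ.Cmp
import Pool.Agent.Y723.JG.Main
import Pool.Agent.TH344.SG.Cor

/-!
# The average rank in one-parameter families of elliptic curves and Jacobians along the integer parts
of smoothly varying functions

Let `g ≥ 1` and let `u_0, ..., u_(2 g)` be polynomials with integer coefficients. For an integer `t`
with distinct values `u_i(t)` let `J_t` be the Jacobian of `y² = ∏ (x - u_i(t))`. The argument `t` runs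
through the integer parts `⌊φ(n)⌋` for a smoothly varying function `φ` of non-integral index `c > 0`,
for instance `φ(x) = x ^ c`: a sparse sequence, with about `x ^ (1 / c)` members up to `x` for
`c > 1`. Let `G_1, ..., G_r` be irreducible polynomials without a fixed prime divisor (`r = 0` is
allowed), such that the product of the differences `u_i - u_j`, `i < j`, and of the `G_i` is squarefree
over `ℚ`. There are at least `κ X / (log X) ^ r` integers `n ≤ X` for which all the prime factors of the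
values `G_i(⌊φ(n)⌋)` are larger than `X ^ δ`. We bound the average over these `n` of the `k`-th power
of `(#(J_t(ℚ) / 2 ^ m) * #Ш(J_t)[2 ^ m]) ^ (1 / m)`, `t = ⌊φ(n)⌋`, uniformly in `m`, and of
`2 ^ (rank + corank)`, without an exceptional set, if the numbers of the irreducible factors of the
differences are balanced. If these numbers are equal the condition is `2 ^ k ≤ 2 g`.

For `g = 1` the curves `J_t` are the elliptic curves `y² = (x - u_0(t)) (x - u_1(t)) (x - u_2(t))`, and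
the condition holds for `k = 1` if the three differences have equally many irreducible factors: the
average of `2 ^ (rank + corank)` over the `n` is bounded.

(The theorem was written for `MP_a43263_nt` by helper870 and moved here.)
-/

namespace Pool.Agent.Results.MP_788af2_nt.RanksAlongSequences

open Finset Polynomial Filter Topology UniqueFactorizationMonoid Pool.Agent.Y723.SJ
open Pool.Agent.TH344.SG

/-- `φ` is smoothly varying of index `c`: it is infinitely differentiable and positive for large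
arguments, and `t ^ m φ⁽ᵐ⁾(t) / φ(t) → c (c - 1) ... (c - m + 1)` for every `m`. -/
def SmoothlyVarying (c : ℝ) (φ : ℝ → ℝ) : Prop :=
  (∃ t₀ : ℝ, ∀ t > t₀, ContDiffAt ℝ ((⊤ : ℕ∞) : WithTop ℕ∞) φ t ∧ 0 < φ t) ∧
  ∀ m : ℕ, Tendsto (fun t => t ^ m * iteratedDeriv m φ t / φ t) atTop (𝓝 (∏ i ∈ range m, (c - i)))

/-- the powers `t ^ c` are smoothly varying -/
theorem smoothlyVarying_rpow (c : ℝ) : SmoothlyVarying c (fun t => t ^ c) := by
  refine ⟨⟨0, fun t ht => ⟨contDiffAt_id.rpow_const_of_ne ht.ne', Real.rpow_pos_of_pos ht _⟩⟩,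
    fun m => ?_⟩
  refine tendsto_const_nhds.congr' ?_
  filter_upwards [eventually_gt_atTop (0 : ℝ)] with t ht
  rw [iteratedDeriv_eq_iterate, Real.iter_deriv_rpow_const, descPochhammer_eval_eq_prod_range,
    Real.rpow_sub ht, Real.rpow_natCast]
  have h1 : t ^ c ≠ 0 := (Real.rpow_pos_of_pos ht _).ne'
  field_simp

variable {g : ℕ}

/-- the tuple of the values -/
def val (u : Fin (2 * g + 1) → ℤ[X]) (t : ℤ) (i : Fin (2 * g + 1)) : ℤ := (u i).eval t

/-- the number of the elements of `Ш(J)` killed by `n`, `J` the Jacobian of `y² = ∏ (x - a i)` -/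
noncomputable def sha (n : ℕ) (a : Fin (2 * g + 1) → ℤ) : ℕ := Nat.card (ShaTorsion a n)

/-- the number of the elements of `J(ℚ) / n J(ℚ)` -/
noncomputable def quo (n : ℕ) (a : Fin (2 * g + 1) → ℤ) : ℕ := Nat.card (QuotQ a n)

/-- The corank of the 2-primary part of `Ш(J)`: the largest `t` such that `(ℤ / 2 ^ n) ^ t` embeds
in `Ш(J)` for all `n`. -/
noncomputable def corank (a : Fin (2 * g + 1) → ℤ) : ℕ := corank2 (Sha a)

/-- the pairs `(i, j)` with `i < j` -/
def Pairs (g : ℕ) : Finset (Fin (2 * g + 1) × Fin (2 * g + 1)) := univ.filter (fun c => c.1 < c.2)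

/-- the two pairs are different and have a common index -/
def Meet (c d : Fin (2 * g + 1) × Fin (2 * g + 1)) : Prop :=
  c ≠ d ∧ (c.1 = d.1 ∨ c.1 = d.2 ∨ c.2 = d.1 ∨ c.2 = d.2)

/-- the difference `u_i - u_j`, `c = (i, j)`, as a polynomial with rational coefficients -/
noncomputable def diff (u : Fin (2 * g + 1) → ℤ[X]) (c : Fin (2 * g + 1) × Fin (2 * g + 1)) : ℚ[X] :=
  (u c.1 - u c.2).map (Int.castRingHom ℚ)

/-- the number of the irreducible factors of the difference -/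
noncomputable def nf (u : Fin (2 * g + 1) → ℤ[X]) (c : Fin (2 * g + 1) × Fin (2 * g + 1)) : ℕ :=
  Multiset.card (normalizedFactors (diff u c))

open Classical in
/-- for every set `S` of pairwise disjoint pairs, `n` times the sum of the numbers of the irreducible
factors over `S` is at most the sum over the pairs that have exactly one index in common with a pair
of `S` -/
def Balanced (u : Fin (2 * g + 1) → ℤ[X]) (n : ℕ) : Prop :=
  ∀ S ⊆ Pairs g, (∀ c ∈ S, ∀ d ∈ S, ¬ Meet c d) →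
    n * ∑ c ∈ S, nf u c ≤ ∑ d ∈ (Pairs g).filter (fun d => ∃ c ∈ S, Meet c d), nf u d

open Classical in
/-- the integers `1 ≤ n ≤ X` such that for `t = ⌊φ(n)⌋` the values `u_i(t)` are distinct, and all the
prime factors of the integers `G_i(t)` are larger than `y` -/
noncomputable def Args (φ : ℝ → ℝ) (u : Fin (2 * g + 1) → ℤ[X]) {r : ℕ} (G : Fin r → ℤ[X]) (y : ℝ)
    (X : ℕ) : Finset ℕ :=
  (Icc 1 X).filter (fun n : ℕ => Function.Injective (val u ⌊φ n⌋) ∧
    ∀ i, ∀ p : ℕ, p.Prime → (p : ℤ) ∣ (G i).eval ⌊φ n⌋ → y < p)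

/-! ### Proofs -/

open Pool.Agent.TH344.JG (PR adj SelJ)
open Pool.Agent.Y723.PJ (BalS)

lemma meet_iff (c d : PR (2 * g + 1)) : Meet c.1 d.1 ↔ adj c d = true := by
  rw [Pool.Agent.Y723.JG.AdjAux.adj_iff]
  unfold Meet
  rw [Ne, Ne, Subtype.ext_iff]

lemma mem_Pairs (c : Fin (2 * g + 1) × Fin (2 * g + 1)) : c ∈ Pairs g ↔ c.1 < c.2 := by
  unfold Pairs
  rw [mem_filter]
  exact ⟨fun h => h.2, fun h => ⟨mem_univ _, h⟩⟩

lemma bal_iff (u : Fin (2 * g + 1) → ℤ[X]) (n : ℕ) :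
    Balanced u n ↔ BalS (adj (n := 2 * g + 1)) (fun c => nf u c.1) n := by
  classical
  have hsum : ∀ (P : Fin (2 * g + 1) × Fin (2 * g + 1) → Prop) [DecidablePred P],
      ∑ d ∈ (Pairs g).filter P, nf u d =
        ∑ d ∈ (univ : Finset (PR (2 * g + 1))).filter (fun d => P d.1), nf u d.1 := by
    intro P _
    symm
    refine sum_bij (fun d _ => d.1) ?_ ?_ ?_ (fun _ _ => rfl)
    · intro d hd
      rw [mem_filter] at hd ⊢
      exact ⟨(mem_Pairs _).2 d.2, hd.2⟩
    · intro d _ d' _ h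
      exact Subtype.ext h
    · intro c hc
      rw [mem_filter, mem_Pairs] at hc
      exact ⟨⟨c, hc.1⟩, mem_filter.2 ⟨mem_univ _, hc.2⟩, rfl⟩
  constructor
  · intro h S hS
    have h1 := h (S.image Subtype.val) (by
      intro c hc
      obtain ⟨d, _, rfl⟩ := mem_image.1 hc
      exact (mem_Pairs _).2 d.2) (by
      intro c hc d hd
      obtain ⟨c', hc', rfl⟩ := mem_image.1 hc
      obtain ⟨d', hd', rfl⟩ := mem_image.1 hd
      rw [meet_iff, hS c' hc' d' hd']
      simp)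
    rw [hsum, sum_image (fun a _ b _ h => Subtype.ext h)] at h1
    refine h1.trans (le_of_eq ?_)
    refine sum_congr ?_ fun _ _ => rfl
    ext d
    rw [mem_filter, mem_filter]
    refine and_congr_right fun _ => ?_
    constructor
    · rintro ⟨c, hc, hm⟩
      obtain ⟨c', hc', rfl⟩ := mem_image.1 hc
      exact ⟨c', hc', (meet_iff _ _).1 hm⟩
    · rintro ⟨c, hc, hm⟩
      exact ⟨c.1, mem_image_of_mem _ hc, (meet_iff _ _).2 hm⟩
  · intro h S hS hS2
    obtain ⟨T, hmem⟩ : ∃ T : Finset (PR (2 * g + 1)), ∀ c, c ∈ T ↔ c.1 ∈ S :=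
      ⟨univ.filter (fun c => c.1 ∈ S), fun c => by simp⟩
    have h1 := h T (by
      intro c hc d hd
      rw [hmem] at hc hd
      have h2 := hS2 _ hc _ hd
      rw [meet_iff] at h2
      simpa using h2)
    have h2 : ∑ c ∈ T, nf u c.1 = ∑ c ∈ S, nf u c := by
      refine sum_bij (fun d _ => d.1) ?_ ?_ ?_ (fun _ _ => rfl)
      · intro d hd
        exact (hmem d).1 hd
      · intro d _ d' _ h
        exact Subtype.ext h
      · intro c hc
        exact ⟨⟨c, (mem_Pairs _).1 (hS hc)⟩, (hmem _).2 hc, rfl⟩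
    rw [hsum, ← h2]
    refine h1.trans (le_of_eq ?_)
    refine sum_congr ?_ fun _ _ => rfl
    ext d
    rw [mem_filter, mem_filter]
    refine and_congr_right fun _ => ?_
    constructor
    · rintro ⟨c, hc, hm⟩
      exact ⟨c.1, (hmem _).1 hc, (meet_iff _ _).2 hm⟩
    · rintro ⟨c, hc, hm⟩
      exact ⟨⟨c, (mem_Pairs _).1 (hS hc)⟩, (hmem _).2 hc, (meet_iff _ _).1 hm⟩

/-- one curve -/
lemma curve {a : Fin (2 * g + 1) → ℤ} (ha : Function.Injective a) (m : ℕ) :
    Finite (ShaTorsion a (2 ^ m)) ∧ Finite (QuotQ a (2 ^ m)) ∧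
      quo (2 ^ m) a * sha (2 ^ m) a ≤ (SelJ a).ncard ^ m ∧
      quo 2 a * 2 ^ corank a ≤ (SelJ a).ncard := by
  have hfin := Pool.Agent.Y723.JG.selJ_fin ⟨g, rfl⟩ ha
  obtain ⟨h1, h2, h3⟩ := sha_sel_pow ha hfin m
  exact ⟨h1, h2, h3, cor_le ha hfin⟩

open Classical in
/-- the bound for the Selmer groups -/
theorem sel_bound {c : ℝ} {φ : ℕ → ℝ → ℝ} (hφ : Pool.Agent.N193.PS.SV c φ)
    {k : ℕ} (hg : 1 ≤ g) (hk : 1 ≤ k) (u : Fin (2 * g + 1) → ℤ[X])
    (hbal : Balanced u (2 ^ k)) {r : ℕ} (G : Fin r → ℤ[X])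
    (hG : ∀ i, Irreducible (G i) ∧ 0 < (G i).natDegree)
    (hadm : ∀ p : ℕ, p.Prime → ∃ m : ℕ, ∀ i, ¬ (p : ℤ) ∣ (G i).eval (m : ℤ))
    (hsq : Squarefree ((∏ c ∈ Pairs g, diff u c) * ∏ i, (G i).map (Int.castRingHom ℚ))) :
    ∃ δ : ℝ, 0 < δ ∧ ∃ κ : ℝ, 0 < κ ∧ ∃ (C : ℝ) (X₀ : ℕ), ∀ X : ℕ, X₀ ≤ X →
      κ * (X / (Real.log X) ^ r) ≤ ((Args (φ 0) u G ((X : ℝ) ^ δ) X).card : ℝ) ∧
      ∑ n ∈ Args (φ 0) u G ((X : ℝ) ^ δ) X, ((SelJ (val u ⌊φ 0 n⌋)).ncard : ℝ) ^ k ≤
        C * (Args (φ 0) u G ((X : ℝ) ^ δ) X).card := by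
  have hprod : ∏ c ∈ Pairs g, diff u c =
      ∏ c : PR (2 * g + 1), Pool.Agent.TH841.PT.mQ (u c.1.1 - u c.1.2) :=
    prod_subtype (Pairs g) mem_Pairs (diff u)
  rw [hprod] at hsq
  obtain ⟨J, hJ1, hJ2, κ, cls, f, hP, hcard⟩ := Pool.Agent.Y723.PJ.exists_Pn u
    (hsq.squarefree_of_dvd (Dvd.intro _ rfl))
  have hbal' : BalS (adj (n := 2 * g + 1)) (fun c => (univ.filter (fun j => cls j = c)).card)
      (2 ^ k) := by
    have h1 := (bal_iff u (2 ^ k)).1 hbal
    have h2 : (fun c : PR (2 * g + 1) => (univ.filter (fun j => cls j = c)).card) =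
        fun c => nf u c.1 := funext fun c => hcard c
    rw [h2]
    exact h1
  have hdeg : ∀ {p : ℤ[X]}, 0 < p.natDegree →
      ¬ IsUnit (Pool.Agent.TH841.PT.mQ p) := by
    intro p hp hu
    have h6 := Polynomial.natDegree_eq_zero_of_isUnit hu
    unfold Pool.Agent.TH841.PT.mQ at h6
    rw [Polynomial.natDegree_map_eq_of_injective (RingHom.injective_int (Int.castRingHom ℚ))] at h6
    omega
  have hass : ∀ {p q : ℤ[X]}, Associated p q →
      Associated (Pool.Agent.TH841.PT.mQ p) (Pool.Agent.TH841.PT.mQ q) := by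
    intro p q h
    exact h.map (Polynomial.mapRingHom (Int.castRingHom ℚ))
  have hfd : ∀ j, Pool.Agent.TH841.PT.mQ (f j) ∣
      ∏ c : PR (2 * g + 1), Pool.Agent.TH841.PT.mQ (u c.1.1 - u c.1.2) := by
    intro j
    have hd1 : f j ∣ u (cls j).1.1 - u (cls j).1.2 := by
      rw [hP.fac (cls j)]
      exact dvd_mul_of_dvd_right (dvd_prod_of_mem f
        ((mem_filter (p := fun l => cls l = cls j)).2 ⟨mem_univ j, rfl⟩)) _
    exact (Polynomial.map_dvd _ hd1).trans (dvd_prod_of_mem (fun c : PR (2 * g + 1) =>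
      Pool.Agent.TH841.PT.mQ (u c.1.1 - u c.1.2)) (mem_univ (cls j)))
  have hall : Pool.Agent.TH841.PT.Irr (Sum.elim f G) := by
    refine ⟨?_, ?_, ?_⟩
    · rintro (x | x)
      · exact hP.irr.irr x
      · exact (hG x).1
    · rintro (x | x)
      · exact hP.irr.deg x
      · exact (hG x).2
    · have key : ∀ x y, ¬ Associated (f x) (G y) := by
        intro x y has
        refine hdeg (hP.irr.deg x) (hsq _ ?_)
        exact mul_dvd_mul (hfd x) ((hass has).dvd.trans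
          (dvd_prod_of_mem (fun i => (G i).map (Int.castRingHom ℚ)) (mem_univ y)))
      rintro (x | x) (y | y) hne has
      · exact hP.irr.assoc x y (fun h => hne (by rw [h])) has
      · exact key x y has
      · exact key y x has.symm
      · refine hdeg (hG x).2 (hsq _ ?_)
        refine dvd_mul_of_dvd_right ?_ _
        rw [← mul_prod_erase univ _ (mem_univ x)]
        refine mul_dvd_mul_left _ ((hass has).dvd.trans ?_)
        exact dvd_prod_of_mem (fun i => (G i).map (Int.castRingHom ℚ))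
          (mem_erase.2 ⟨fun h => hne (by rw [h]), mem_univ y⟩)
  have hG1 : Pool.Agent.TH841.PT.Irr G := ⟨fun i => hall.irr (Sum.inr i),
    fun i => hall.deg (Sum.inr i),
    fun i l h => hall.assoc (Sum.inr i) (Sum.inr l) (fun h' => h (Sum.inr.inj h'))⟩
  have hQ0 : ∀ c ∈ Pairs g, u c.1 - u c.2 ≠ 0 := by
    intro c hc h0
    have h1 : ∏ c ∈ Pairs g, diff u c = 0 := by
      refine prod_eq_zero hc ?_
      unfold diff
      rw [h0, Polynomial.map_zero]
    rw [← hprod, h1, zero_mul] at hsq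
    exact not_squarefree_zero hsq
  have k1 : ∀ t : ℤ, (∏ c ∈ Pairs g, (u c.1 - u c.2)).eval t ≠ 0 →
      Function.Injective (val u t) := by
    intro t ht
    rw [eval_prod, prod_ne_zero_iff] at ht
    intro i j hij
    by_contra hne
    rcases lt_or_gt_of_ne hne with hlt | hlt
    · refine ht (i, j) ((mem_Pairs _).2 hlt) ?_
      rw [eval_sub, sub_eq_zero]
      exact hij
    · refine ht (j, i) ((mem_Pairs _).2 hlt) ?_
      rw [eval_sub, sub_eq_zero]
      exact hij.symm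
  have k2 : ∀ (B : ℕ) (δ : ℝ), 0 < δ → ∃ C : ℝ, 0 ≤ C ∧ ∀ (X L : ℕ) (α : ℕ → ℤ),
      Pool.Agent.N870.SQ.Adm B X L α → Pool.Agent.N870.SQ.LeA
      (fun t => ((SelJ (fun i => (u i).eval t)).ncard : ℝ) ^ k)
      (fun t => Function.Injective (val u t) ∧
        Pool.Agent.TH841.TR.N870.Rgh (∏ i, G i) 0 ((L : ℝ) ^ δ) t) α X
        (C * (X / (Real.log L) ^ r)) := by
    intro B δ hδ
    obtain ⟨C, hC0, hC⟩ := Pool.Agent.N870.SQ.jacA (k := k) hg hk hP hbal' hall B δ hδ 0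
    refine ⟨C, hC0, fun X L α hA => (hC X L α hA).mono (fun t ht => ⟨fun j hj => ?_, ht.2⟩) le_rfl⟩
    have hd1 : f j ∣ u (cls j).1.1 - u (cls j).1.2 := by
      rw [hP.fac (cls j)]
      exact dvd_mul_of_dvd_right (dvd_prod_of_mem f
        ((mem_filter (p := fun l => cls l = cls j)).2 ⟨mem_univ j, rfl⟩)) _
    obtain ⟨q, hq⟩ := hd1
    have h1 := congrArg (Polynomial.eval t) hq
    rw [eval_sub, eval_mul, hj, zero_mul, sub_eq_zero] at h1
    exact (cls j).2.ne (ht.1 h1)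
  obtain ⟨δ, hδ, κ', hκ', C, X₀, h⟩ := Pool.Agent.N870.SQ.fl_of hφ hG1 hadm
    (fun t => ((SelJ (fun i => (u i).eval t)).ncard : ℝ) ^ k)
    (fun t => Function.Injective (val u t)) (∏ c ∈ Pairs g, (u c.1 - u c.2))
    (prod_ne_zero_iff.2 hQ0) k1 k2
  refine ⟨δ, hδ, κ', hκ', C, X₀, fun X hX => h X hX _ ?_⟩
  unfold Args
  congr

open Classical in
/-- **Theorem.** Let `φ` be a smoothly varying function of index `c > 0`, not an integer. Let `g ≥ 1`,
`k ≥ 1` and let `u_0, ..., u_(2 g)` be polynomials with integer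
coefficients. If all the differences `u_i - u_j` have the same number of irreducible factors and
`2 ^ k ≤ 2 g`, then `u` is balanced for `2 ^ k`. Let `u` be balanced for `2 ^ k`, let `G_1, ..., G_r`
be irreducible, not constant polynomials with integer coefficients, without a fixed prime divisor,
such that the product of all the `u_i - u_j`, `i < j`, and all the `G_i` is squarefree over `ℚ`. There
are `δ > 0`, `κ > 0`, `C` and `X₀` such that for `X ≥ X₀` the set `P` of the `n ≤ X` for which, with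
`t = ⌊φ(n)⌋`, the `u_i(t)` are distinct and all the prime factors of the `G_i(t)` are larger than
`X ^ δ`, has at least `κ X / (log X) ^ r` elements, and for the Jacobians
`J_t` of `y² = ∏ (x - u_i(t))`, `n` in `P`, the groups `Ш(J_t)[2 ^ m]` and `J_t(ℚ) / 2 ^ m` are
finite, the average over `P` of the `k`-th power of `(#(J_t(ℚ) / 2 ^ m) * #Ш(J_t)[2 ^ m]) ^ (1 / m)`
is at most `C` for all `m ≥ 1`, and so is the average of the `k`-th power of
`#(J_t(ℚ) / 2) * 2 ^ corank`. -/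
theorem result (c : ℝ) (hc : 0 < c) (hcn : ∀ m : ℕ, c ≠ m) (φ : ℝ → ℝ) (hφ : SmoothlyVarying c φ)
    (g k : ℕ) (hg : 1 ≤ g) (hk : 1 ≤ k) (u : Fin (2 * g + 1) → ℤ[X]) :
    ((∃ ν : ℕ, ∀ c ∈ Pairs g, nf u c = ν) → 2 ^ k ≤ 2 * g → Balanced u (2 ^ k)) ∧
    (Balanced u (2 ^ k) → ∀ (r : ℕ) (G : Fin r → ℤ[X]),
      (∀ i, Irreducible (G i) ∧ 0 < (G i).natDegree) →
      (∀ p : ℕ, p.Prime → ∃ m : ℕ, ∀ i, ¬ (p : ℤ) ∣ (G i).eval (m : ℤ)) →
      Squarefree ((∏ c ∈ Pairs g, diff u c) * ∏ i, (G i).map (Int.castRingHom ℚ)) →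
      ∃ δ : ℝ, 0 < δ ∧ ∃ κ : ℝ, 0 < κ ∧ ∃ (C : ℝ) (X₀ : ℕ), ∀ X : ℕ, X₀ ≤ X →
        κ * (X / (Real.log X) ^ r) ≤ ((Args φ u G ((X : ℝ) ^ δ) X).card : ℝ) ∧
        (∀ n ∈ Args φ u G ((X : ℝ) ^ δ) X, ∀ m : ℕ, Finite (ShaTorsion (val u ⌊φ n⌋) (2 ^ m)) ∧
          Finite (QuotQ (val u ⌊φ n⌋) (2 ^ m))) ∧
        (∀ m : ℕ, 1 ≤ m → ∑ n ∈ Args φ u G ((X : ℝ) ^ δ) X,
          ((quo (2 ^ m) (val u ⌊φ n⌋) * sha (2 ^ m) (val u ⌊φ n⌋) : ℕ) : ℝ) ^ ((k : ℝ) / m) ≤
            C * (Args φ u G ((X : ℝ) ^ δ) X).card) ∧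
        ∑ n ∈ Args φ u G ((X : ℝ) ^ δ) X,
          ((quo 2 (val u ⌊φ n⌋) * 2 ^ corank (val u ⌊φ n⌋) : ℕ) : ℝ) ^ k ≤
          C * (Args φ u G ((X : ℝ) ^ δ) X).card) := by
  refine ⟨?_, fun hbal r G hG hfix hsq => ?_⟩
  · rintro ⟨ν, hν⟩ hk2
    rw [bal_iff]
    have h1 : (fun c : PR (2 * g + 1) => nf u c.1) = fun _ => ν :=
      funext fun c => hν c.1 ((mem_Pairs _).2 c.2)
    rw [h1]
    exact Pool.Agent.Y723.PJ.bal_unif g k ν hk2
  · have h := sel_bound (Pool.Agent.N870.SQ.sv_of c hc hcn φ hφ) (k := k) hg hk u hbal G hG hfix hsq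
    simp only [iteratedDeriv_zero] at h
    obtain ⟨δ, hδ, κ, hκ, C, X₀, h1⟩ := h
    refine ⟨δ, hδ, κ, hκ, C, X₀, fun X hX => ?_⟩
    obtain ⟨hcard, hsum⟩ := h1 X hX
    have hinj : ∀ n ∈ Args φ u G ((X : ℝ) ^ δ) X, Function.Injective (val u ⌊φ n⌋) := by
      intro n hn
      unfold Args at hn
      exact (mem_filter.1 hn).2.1
    refine ⟨hcard, fun n hn m => ⟨(curve (hinj n hn) m).1, (curve (hinj n hn) m).2.1⟩,
      fun m hm => ?_, ?_⟩
    · refine le_trans (sum_le_sum fun n hn => ?_) hsum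
      have h1 : ((quo (2 ^ m) (val u ⌊φ n⌋) * sha (2 ^ m) (val u ⌊φ n⌋) : ℕ) : ℝ) ≤
          ((SelJ (val u ⌊φ n⌋)).ncard : ℝ) ^ m := by
        exact_mod_cast (curve (hinj n hn) m).2.2.1
      have h2 := Real.rpow_le_rpow (Nat.cast_nonneg _) h1
        (by positivity : (0 : ℝ) ≤ (k : ℝ) / m)
      refine h2.trans (le_of_eq ?_)
      have hm0 : (m : ℝ) ≠ 0 := by exact_mod_cast (by omega : m ≠ 0)
      rw [← Real.rpow_natCast, ← Real.rpow_mul (Nat.cast_nonneg _), mul_div_cancel₀ _ hm0,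
        Real.rpow_natCast]
    · refine le_trans (sum_le_sum fun n hn => ?_) hsum
      refine pow_le_pow_left₀ (Nat.cast_nonneg _) ?_ k
      exact_mod_cast (curve (hinj n hn) 0).2.2.2

end Pool.Agent.Results.MP_788af2_nt.RanksAlongSequences
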