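import Pool.Agent.N666.TB.Q

/-!
# The original products of Birch and Swinnerton-Dyer for thin families of elliptic curves over `ℚ`

For `a, b, c ∈ ℤ[X]`, `c` monic of odd degree `2 g + 1`, `deg a ≤ 2 g - 2`, `deg b ≤ 2 g - 1`,
`b² - 4 a c ≠ 0`, let `C_{u,v}` be the curve `y² = a(x) (u x + v)² + b(x) (u x + v) + c(x)` (for `a = 0`,
`b = 1`, `c = x³` these are the curves `y² = x³ + u x + v`, all elliptic curves over `ℚ`), and let `J_{u,v}`
be its Jacobian. The original form of the conjecture of Birch and Swinnerton-Dyer concerns the growth of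
`∏_{p ≤ x} #J(𝔽_p) / p^g`.

The parameters are thin: `(u, v) = (⌊P(n)⌋, ⌊Q(n)⌋)`, where `P`, `Q` are generalised polynomials (finite sums
of real powers with real coefficients) whose leading exponents are positive, not integers and different,
with positive leading coefficients; `n` runs through the integers, or through the primes, of `(N, 2 N]`.
Example: `y² = x³ + ⌊n^√2⌋ x + ⌊n^√3⌋`: these are `N` of about `N^(√2 + √3)` curves of this size.

The theorem: for almost all these `n` the product is `(log x)^(r + 1/2 + o(1))`, for *all* `x` up to a power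
of `N`, with an explicit error term and with a bound for the number of the exceptions, the same as for the
full boxes. Here `r` is the rank of the Jacobian of the curve `y² = a(x) w² + b(x) w + c(x)` over `ℚ(w)`,
in the form of an explicit formula.
-/

set_option autoImplicit false

namespace Pool.Agent.Results.MP_788af2_nt.ThinOriginalProducts

open Polynomial Finset

/-- The polynomial `a(x) (u x + v)² + b(x) (u x + v) + c(x)`. -/
noncomputable def family (a b c : ℤ[X]) (u v : ℤ) : ℤ[X] :=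
  a * (C u * X + C v) ^ 2 + b * (C u * X + C v) + c

/-- For a prime `p` and `k ≥ 1`: the number of the points of the affine curve `y² = f(x)` over the field
with `p ^ k` elements, minus `p ^ k`. -/
noncomputable def trace (f : ℤ[X]) (p k : ℕ) : ℝ :=
  if h : p.Prime then
    haveI : Fact p.Prime := ⟨h⟩
    (Nat.card {P : GaloisField p k × GaloisField p k // P.2 ^ 2 = aeval P.1 f} : ℝ) - (p : ℝ) ^ k
  else 0

/-- `∑_{k ≥ 1} trace(p, k) / (k p ^ k)`.  For a monic `f` of degree `2 g + 1` and an odd prime `p` of good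
reduction it is `log (#J(𝔽_p) / p ^ g)`. -/
noncomputable def logFactor (f : ℤ[X]) (p : ℕ) : ℝ :=
  ∑' k : ℕ, trace f p (k + 1) / ((k + 1 : ℕ) * (p : ℝ) ^ (k + 1))

/-- The logarithm of the product over the odd primes `p ≤ x`. -/
noncomputable def logProduct (f : ℤ[X]) (x : ℕ) : ℝ :=
  ∑ p ∈ (Icc 1 x).filter (fun p => p.Prime ∧ p ≠ 2), logFactor f p

/-- Modulo `δ`, the polynomial `a w² + b w + c` is the square of a nonzero polynomial `r w + s`. -/
def IsSplit (a b c δ : ℚ[X]) : Prop :=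
  ∃ r s : ℚ[X], δ ∣ a - r ^ 2 ∧ δ ∣ b - 2 * r * s ∧ δ ∣ c - s ^ 2 ∧ ¬ (δ ∣ r ∧ δ ∣ s)

/-- The number of the monic irreducible polynomials over which the conic splits. -/
noncomputable def sigma (a b c : ℚ[X]) : ℕ :=
  Nat.card {δ : ℚ[X] // δ.Monic ∧ Irreducible δ ∧ IsSplit a b c δ}

open Classical in
/-- `σ - 1` if `a` is a nonzero square, and `σ` otherwise. -/
noncomputable def rank (a b c : ℚ[X]) : ℝ :=
  (sigma a b c : ℝ) - if a ≠ 0 ∧ IsSquare a then 1 else 0

/-- `γ` is the largest exponent of the generalised polynomial `∑ α_x t ^ x`; it is positive and not an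
integer and has a positive coefficient. -/
def Admissible (F : Finset ℝ) (α : ℝ → ℝ) (γ : ℝ) : Prop :=
  γ ∈ F ∧ (∀ x ∈ F, x ≤ γ) ∧ 0 < γ ∧ (∀ m : ℕ, γ ≠ m) ∧ 0 < α γ

/-- The integer part of the value at `n` of the generalised polynomial `∑ α_x t ^ x`, `x ∈ F`. -/
noncomputable def floorAt (F : Finset ℝ) (α : ℝ → ℝ) (n : ℕ) : ℤ := ⌊∑ x ∈ F, α x * (n : ℝ) ^ x⌋

/-- The logarithm of the product of the polynomial `f` differs from `(r + 1/2) log log x` by more than
`l (log log x)^(1/2) (1 + log log log x)^ε`, for an integer `x ≥ 16` with `x ^ k ≤ N`. -/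
def Exceptional (f : ℤ[X]) (r ε l : ℝ) (k N : ℕ) : Prop :=
  ∃ x : ℕ, 16 ≤ x ∧ x ^ k ≤ N ∧
    l * Real.log (Real.log x) ^ (1 / 2 : ℝ) * (1 + Real.log (Real.log (Real.log x))) ^ ε <
      |logProduct f x - (r + 1 / 2) * Real.log (Real.log x)|

/-- **The original products of Birch and Swinnerton-Dyer for almost all members of a thin family.** -/
theorem result (a b c : ℤ[X]) (hc : c.Monic) (hodd : Odd c.natDegree)
    (ha : a.natDegree + 2 < c.natDegree) (hb : b.natDegree + 1 < c.natDegree)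
    (hΔ : b ^ 2 - 4 * a * c ≠ 0)
    (F G : Finset ℝ) (α β : ℝ → ℝ) (γ δ : ℝ) (hF : Admissible F α γ) (hG : Admissible G β δ)
    (hγδ : γ ≠ δ) :
    -- the definitions make sense
    (∀ u v : ℤ, (family a b c u v).Monic ∧ (family a b c u v).natDegree = c.natDegree) ∧
    (∀ u v : ℤ, ∀ p : ℕ, p.Prime → p ≠ 2 → Summable fun k : ℕ =>
      trace (family a b c u v) p (k + 1) / ((k + 1 : ℕ) * (p : ℝ) ^ (k + 1))) ∧
    Finite {δ : ℚ[X] // δ.Monic ∧ Irreducible δ ∧ IsSplit (a.map (Int.castRingHom ℚ))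
      (b.map (Int.castRingHom ℚ)) (c.map (Int.castRingHom ℚ)) δ} ∧
    -- the law
    ∀ ε A : ℝ, 0 < ε → 0 < A → ∃ (k : ℕ) (K : ℝ) (N₀ : ℕ), 0 < k ∧
      ∀ N : ℕ, N₀ ≤ N → ∀ l : ℝ, 1 ≤ l →
        ({n : ℕ | N < n ∧ n ≤ 2 * N ∧
          Exceptional (family a b c (floorAt F α n) (floorAt G β n))
            (rank (a.map (Int.castRingHom ℚ)) (b.map (Int.castRingHom ℚ))
              (c.map (Int.castRingHom ℚ))) ε l k N}.ncard : ℝ) ≤ K * l ^ (-A) * N ∧
        ({n : ℕ | N < n ∧ n ≤ 2 * N ∧ n.Prime ∧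
          Exceptional (family a b c (floorAt F α n) (floorAt G β n))
            (rank (a.map (Int.castRingHom ℚ)) (b.map (Int.castRingHom ℚ))
              (c.map (Int.castRingHom ℚ))) ε l k N}.ncard : ℝ) ≤
          K * l ^ (-A) * ({n : ℕ | N < n ∧ n ≤ 2 * N ∧ n.Prime}.ncard : ℝ) := by
  classical
  have h : Pool.Agent.N430.BP.Hyp a b c := ⟨hc, hodd, ha, hb, hΔ⟩
  have hinjQ : Function.Injective (Int.castRingHom ℚ) := Int.cast_injective
  have hΔQ : (b.map (Int.castRingHom ℚ)) ^ 2 - 4 * a.map (Int.castRingHom ℚ) *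
      c.map (Int.castRingHom ℚ) ≠ 0 := by
    have h1 : (b ^ 2 - 4 * a * c).map (Int.castRingHom ℚ) ≠ 0 :=
      (Polynomial.map_ne_zero_iff hinjQ).2 hΔ
    rwa [Polynomial.map_sub, Polynomial.map_mul, Polynomial.map_mul, Polynomial.map_pow,
      Polynomial.map_ofNat] at h1
  have hsplit : ∀ δ : ℚ[X], IsSplit (a.map (Int.castRingHom ℚ)) (b.map (Int.castRingHom ℚ))
      (c.map (Int.castRingHom ℚ)) δ ↔ ∃ r s : ℚ[X], Pool.Agent.R410.CB.Spl
      (a.map (Int.castRingHom ℚ)) (b.map (Int.castRingHom ℚ)) (c.map (Int.castRingHom ℚ)) δ r s := by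
    intro δ
    constructor
    · rintro ⟨r, s, h1, h2, h3, h4⟩
      exact ⟨r, s, ⟨h1, h2, h3, h4⟩⟩
    · rintro ⟨r, s, h1, h2, h3, h4⟩
      exact ⟨r, s, h1, h2, h3, h4⟩
  let eS : {δ : ℚ[X] // δ.Monic ∧ Irreducible δ ∧ IsSplit (a.map (Int.castRingHom ℚ))
      (b.map (Int.castRingHom ℚ)) (c.map (Int.castRingHom ℚ)) δ} ≃
      Pool.Agent.R410.NG.SplT (a.map (Int.castRingHom ℚ)) (b.map (Int.castRingHom ℚ))
      (c.map (Int.castRingHom ℚ)) :=
    Equiv.subtypeEquivRight fun δ => by rw [hsplit δ]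
  have hrank : rank (a.map (Int.castRingHom ℚ)) (b.map (Int.castRingHom ℚ))
      (c.map (Int.castRingHom ℚ)) = Pool.Agent.N430.BP.rk a b c := by
    unfold rank sigma Pool.Agent.N430.BP.rk
    rw [Nat.card_congr eS]
  refine ⟨fun u v => Pool.Agent.N430.BP.fam_monic hc ha hb u v,
    fun u v p hp _ => Pool.Agent.N430.BP.summable_tr h hp u v, ?_, ?_⟩
  · have := Pool.Agent.R410.NG.finite_spl (two_ne_zero) hΔQ
    exact Finite.of_equiv _ eS.symm
  intro ε A hε hA
  have hlog : ∀ (u v : ℤ) (x : ℕ), logProduct (family a b c u v) x =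
      ∑ p ∈ Pool.Agent.N430.BP.OP x,
        Pool.Agent.N430.BP.logFactor (Pool.Agent.N430.BP.fam a b c u v) p := by
    intro u v x
    unfold logProduct
    have e : (Icc 1 x).filter (fun p => p.Prime ∧ p ≠ 2) = Pool.Agent.N430.BP.OP x := by
      ext p
      rw [mem_filter, mem_Icc, Pool.Agent.N430.BP.mem_OP]
      constructor
      · rintro ⟨⟨_, h2⟩, h3⟩
        exact ⟨h2, h3⟩
      · rintro ⟨h2, h3⟩
        exact ⟨⟨h3.1.one_le, h2⟩, h3⟩
    rw [e]
    rfl
  set FF : Fin 2 → Finset ℝ := ![F, G] with hFF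
  set aa : Fin 2 → ℝ → ℝ := ![α, β] with haa
  set cc : Fin 2 → ℝ := ![γ, δ] with hcc
  have hadm : ∀ i, cc i ∈ FF i ∧ (∀ t ∈ FF i, t ≤ cc i) ∧ 0 < cc i ∧ (∀ m : ℕ, cc i ≠ m) ∧
      0 < aa i (cc i) := by
    intro i
    fin_cases i
    · exact hF
    · exact hG
  have hinj : Function.Injective cc := by
    intro i j hij
    fin_cases i <;> fin_cases j
    · rfl
    · exact absurd hij hγδ
    · exact absurd hij.symm hγδ
    · rfl
  obtain ⟨⟨ρ₁, hρ₁, hS₁⟩, ⟨ρ₂, hρ₂, hS₂⟩⟩ := Pool.Agent.N666.TM.fl_well hadm hinj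
  obtain ⟨k₁, K₁, N₁, hk₁, hK₁, H₁⟩ := Pool.Agent.N666.TB.thin_Q h hρ₁ hS₁ hε hA
  obtain ⟨k₂, K₂, N₂, hk₂, hK₂, H₂⟩ := Pool.Agent.N666.TB.thin_Q h hρ₂ hS₂ hε hA
  refine ⟨max k₁ k₂, max K₁ K₂, max N₁ N₂, by omega, fun N hN l hl => ?_⟩
  have hl0 : 0 < l ^ (-A) := Real.rpow_pos_of_pos (by linarith) _
  have hrew : ∀ n : ℕ, Exceptional (family a b c (floorAt F α n) (floorAt G β n))
      (rank (a.map (Int.castRingHom ℚ)) (b.map (Int.castRingHom ℚ)) (c.map (Int.castRingHom ℚ))) ε l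
        (max k₁ k₂) N ↔
      ∃ x : ℕ, 16 ≤ x ∧ x ^ (max k₁ k₂) ≤ N ∧
        l * Real.log (Real.log x) ^ (1 / 2 : ℝ) * (1 + Real.log (Real.log (Real.log x))) ^ ε <
          |∑ p ∈ Pool.Agent.N430.BP.OP x, Pool.Agent.N430.BP.logFactor
            (Pool.Agent.N430.BP.fam a b c (Pool.Agent.N666.TM.fl FF aa n 0)
              (Pool.Agent.N666.TM.fl FF aa n 1)) p -
            (Pool.Agent.N430.BP.rk a b c + 1 / 2) * Real.log (Real.log x)| := by
    intro n
    unfold Exceptional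
    simp only [hlog, hrank]
    rfl
  constructor
  · have h1 := H₁ (max k₁ k₂) (le_max_left _ _) N (by omega) l hl
    have e : {n : ℕ | N < n ∧ n ≤ 2 * N ∧ Exceptional (family a b c (floorAt F α n) (floorAt G β n))
        (rank (a.map (Int.castRingHom ℚ)) (b.map (Int.castRingHom ℚ)) (c.map (Int.castRingHom ℚ))) ε l
        (max k₁ k₂) N} = (((Finset.Ioc N (2 * N)).filter fun n : ℕ =>
        ∃ x : ℕ, 16 ≤ x ∧ x ^ (max k₁ k₂) ≤ N ∧
        l * Real.log (Real.log x) ^ (1 / 2 : ℝ) * (1 + Real.log (Real.log (Real.log x))) ^ ε <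
          |∑ p ∈ Pool.Agent.N430.BP.OP x, Pool.Agent.N430.BP.logFactor
            (Pool.Agent.N430.BP.fam a b c (Pool.Agent.N666.TM.fl FF aa n 0)
              (Pool.Agent.N666.TM.fl FF aa n 1)) p -
            (Pool.Agent.N430.BP.rk a b c + 1 / 2) * Real.log (Real.log x)| : Finset ℕ) : Set ℕ) := by
      ext n
      rw [Set.mem_setOf_eq, hrew n]
      simp only [coe_filter, mem_Ioc, Set.mem_setOf_eq]
      tauto
    rw [e, Set.ncard_coe_finset]
    refine h1.trans ?_
    rw [Nat.card_Ioc, show 2 * N - N = N by omega]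
    gcongr
    exact le_max_left _ _
  · have h1 := H₂ (max k₁ k₂) (le_max_right _ _) N (by omega) l hl
    have e : {n : ℕ | N < n ∧ n ≤ 2 * N ∧ n.Prime ∧
        Exceptional (family a b c (floorAt F α n) (floorAt G β n))
        (rank (a.map (Int.castRingHom ℚ)) (b.map (Int.castRingHom ℚ)) (c.map (Int.castRingHom ℚ))) ε l
        (max k₁ k₂) N} = (((Pool.Agent.N666.VE.primes N).filter fun n : ℕ =>
        ∃ x : ℕ, 16 ≤ x ∧ x ^ (max k₁ k₂) ≤ N ∧
        l * Real.log (Real.log x) ^ (1 / 2 : ℝ) * (1 + Real.log (Real.log (Real.log x))) ^ ε <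
          |∑ p ∈ Pool.Agent.N430.BP.OP x, Pool.Agent.N430.BP.logFactor
            (Pool.Agent.N430.BP.fam a b c (Pool.Agent.N666.TM.fl FF aa n 0)
              (Pool.Agent.N666.TM.fl FF aa n 1)) p -
            (Pool.Agent.N430.BP.rk a b c + 1 / 2) * Real.log (Real.log x)| : Finset ℕ) : Set ℕ) := by
      ext n
      rw [Set.mem_setOf_eq, hrew n]
      simp only [Pool.Agent.N666.VE.primes, coe_filter, mem_filter, mem_Ioc, Set.mem_setOf_eq]
      tauto
    have e2 : {n : ℕ | N < n ∧ n ≤ 2 * N ∧ n.Prime} = ((Pool.Agent.N666.VE.primes N : Finset ℕ) : Set ℕ) := by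
      ext n
      simp only [Pool.Agent.N666.VE.primes, coe_filter, mem_Ioc, Set.mem_setOf_eq]
      tauto
    rw [e, e2, Set.ncard_coe_finset, Set.ncard_coe_finset]
    refine h1.trans ?_
    gcongr
    exact le_max_right _ _

end Pool.Agent.Results.MP_788af2_nt.ThinOriginalProducts
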